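import Pool.Agent.Helper15.TC.FinT

/-!
# A reduction of Dade's equalities, summed over the blocks, to almost simple groups

Let `p` be a prime. For a finite group `G` for which `O = O_p(G)` is central and for `p ^ d ≠ |O|`,
the equality `∑_σ (-1)^|σ| k^d(G_σ) = 0` is the sum of Dade's equalities over all blocks `B` of `G`
whose defect groups contain `O` properly (the characters in the other blocks have `p ^ d = |O|`). We
prove that these equalities hold for all finite groups if they hold for the groups `H` which have a
quasisimple normal subgroup `N` with `C_H(N) = Z(H)`, so that `H/Z(H)` is almost simple. Here only the
numerical equalities are used, for `H` and for all smaller groups, and no action of automorphisms.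
Moreover one can assume that all normal `p`-subgroups of `H` are central, that `Z(H)` is cyclic and
contained in `H'`, and that `H/N` has a normal Sylow `p`-subgroup whose quotient is abelian and
generated by two elements.

Proof. (1) Let `s_n(G)` be the number of epimorphisms from the fundamental group of the closed
orientable surface of genus `n + 1` onto `G`. By Frobenius' formula `|Hom| = |G| ∑_χ cod(χ)^(2n)` with
`cod(χ) = |G|/χ(1)`, so `n ↦ s_n(G)` is a linear combination of functions `n ↦ q^n`, `q` a positive
rational number. Let `J` be the ideal of the linear combinations of such functions which vanish if
`q^n` is replaced by `T^(v_p(q))`. It is a prime ideal. The function `s_n(G)` lies in `J` iff all the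
sums `∑_{K ≤ G} μ(K, G) |K| k^d(K)` vanish (`TC/Alg`, `TC/Cnt`), and Dade's equalities hold for all
groups in a class closed under subgroups iff this is so for the noncommutative groups with central
`O_p` in the class (`TC/DadeM`).

(2) (`TC/Tw`, `Ctl`, `Cls`, `Min`) The sum over the invariant characters of a normal subgroup `M` is
controlled by central extensions of `H/M`. It follows that in a minimal counterexample `H` the center
is cyclic and contained in `H'`, and there is a smallest noncentral normal subgroup `N`; `H/N` has a
normal Sylow `p`-subgroup whose quotient is abelian and generated by two elements (for all other
groups, all of whose sections are known, `s_n` lies in `J`), and `N` is perfect or `N' ≤ Z(H)`.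

(3) (`TC/Solv1`, `Solv2`, `Solv`) The case `N' ≤ Z(H)` is a computation with the characters of `N`
which are fully ramified over `N ∩ Z(H)`.

(4) If `N` is perfect then `N Z(H)/Z(H)` is a direct product of simple groups which are permuted by
`H`. If there are several factors, then `H/Z(H)` embeds into a wreath product of a group
`A = H₁/C_{H₁}(R₁)`, `H₁` a maximal subgroup (`TC/StrA`-`StrD`, `DCas`, `DChi`, `DRel`). The sums over
the generating tuples of `H` are given by sums over the tuples `r` of `B = H/N Z(H)` of functions which
only depend on the class of `r` in a central extension of `B`, and these functions are compared with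
those for the central extensions of `A` (`TC/Unv`, `UsT`). Here it is used that `J` is a prime ideal:
the number of the tuples with a given class lies in `J` unless the class is given, up to `p`-elements,
by a generating pair of a complement of the Sylow subgroup (`TC/Top1`-`Top4`, `Pr`, `Pr2`, `EngT`).

The structural part of (4) is the one of this run's `MP_78bba1_al.QuasisimpleReduction` (weights).
Definitions: `TC/DefsD.lean` (`kd`, `IsOp`, `DadeH`, `ClosedT`, `AST`), `AWC/DefsC.lean` (`Smaller`,
`Quasisimple`); `altSum` and `Dft` (the `p`-defect) are in the library (`Q99/AS`). Parts of the files
were written by helper64 (`DadeM`, `Solv*`), helper80 (`Str*`) and helper18 (`DCas`, `DChi`, `DRel`).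
-/

set_option autoImplicit false

namespace Pool.Agent.Results.MP_3f89b9_al.AlmostSimpleReduction

open Pool.Agent.Helper15.AW (Smaller)
open Pool.Agent.Helper15.TC (DadeH ClosedT AST main_red s_comp)

/-- **Reduction to almost simple groups.** Let `p` be a prime and `X` a class of groups closed under
isomorphisms, subgroups, quotients and under central extensions of finite groups (for instance the
class of all groups). Dade's equalities, summed over the blocks, hold for all finite groups `G` in `X`
with `O_p(G) ≤ Z(G)` if (and only if) they hold for each finite group `H` in `X` with the following
properties:
(1) the equalities hold for all finite groups `L` in `X` such that `(|L : Z(L)|, |L|)` is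
lexicographically smaller than `(|H : Z(H)|, |H|)`;
(2) all normal `p`-subgroups of `H` are central, and `p` divides `|H : Z(H)|`;
(3) `Z(H)` is cyclic and contained in the commutator subgroup of `H`;
(4) `H` has a quasisimple normal subgroup `N` such that `C_H(N) = Z(H)` and such that `H/N` has a
normal Sylow `p`-subgroup whose quotient is abelian and generated by two elements. -/
theorem result (p : ℕ) [Fact p.Prime] (X : ∀ (H : Type) [Group H], Prop) (hX : ClosedT X) :
    (∀ (H : Type) [Group H] [Finite H], X H → AST p H →
      (∀ (L : Type) [Group L] [Finite L], X L → Smaller L H → DadeH p L) → DadeH p H) ↔
    ∀ (G : Type) [Group G] [Finite G], X G → DadeH p G :=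
  (main_red s_comp p X hX).1

end Pool.Agent.Results.MP_3f89b9_al.AlmostSimpleReduction
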