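import Pool.Agent.H17.AT.Fnl

/-!
# Dade's ordinary conjecture: wreath products with alternating groups decide

Let `p` be a prime number (`p = 2` is allowed), `F` an algebraically closed field of characteristic `p`
and `red` a ring homomorphism from the algebraic integers to `F`. A `p`-block `B` of a finite group
`G` is (the central character of) a block of `F[G]`: an algebra homomorphism from the centre of `F[G]`
(the class functions `G → F` with the convolution product) to `F`. An irreducible character `θ` of a
subgroup `H` satisfies `bl(θ)^G = B` if `B` is the composition of the restriction of class functions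
from `G` to `H` with the reduction of the central character of `θ`.

Proof. Let `C ≠ 1` be a finite abelian group of order prime to `p`, `G` a subgroup of a finite group `H`
and `Γ = C ≀ H = C^H ⋊ H` the regular wreath product. Let `λ ≠ 1` be a linear character of `C`. The
linear character `z(v) = ∏_{g ∈ G} λ(v_g)` of the base group `A = C^H` has the stabiliser `A G` in `Γ`,
and it extends to `A G`. So the blocks `B` of `G` correspond to the blocks `M` of `Γ` over `z`. Let `υ`
be a chain of `p`-subgroups of `Γ` with the largest member `P` and the stabiliser `K`, and let `θ` be an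
irreducible character of `K` with `bl(θ)^Γ = M`. The test function `∑ ζ^{-1}` (the sum over the
conjugates `ζ` of `z`, extended by zero) shows that the number of the conjugates `ζ` of `z` which extend
a constituent `μ` of the restriction of `θ` to `A ∩ K = C_A(P)` is not divisible by `p`. As `P` acts on
this set, one of these `ζ` is fixed by `P`, so a conjugate of `P` stabilises `z` and is, after another
conjugation, a subgroup of the complement `G`. By the coprime action of `P` on `A` the characters of
`A` fixed by `P` are determined by their restrictions to `C_A(P)`; this shows that the elements `x` for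
which `υ^x` is a chain of `G` and `θ^x` lies over `z` form one double coset `K x G`. For the chains of
`G` the Clifford correspondence is a bijection from the characters of `G_σ` to the characters of `Γ_σ`
over the restriction of `z`; it respects the defects and (by a fixed point argument for `P` acting on
`A`, which is the Brauer homomorphism) the block induction. Summing up, Dade's alternating sums `S_d`
of `B` and `M` agree for all `d`. As all finite groups `G` embed into alternating groups, the
equivalences for the class of all groups give the theorem.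
-/

set_option autoImplicit false

noncomputable section

namespace Pool.Agent.Results.MP_3f89b9_al.AlternatingTops

open Pool.Agent.Y63.KR (alternatingSum)
open Pool.Agent.Y63.NV (IsClassFun IsBlock centralValue)
open Pool.Agent.Y63.AWC (IsIrreducibleCharacter)

variable {F : Type} [Field F]

/-- `k^d(B_σ)` for `G_σ = H`: the number of the irreducible characters `θ` of the subgroup `H` of
`p`-defect `d` with `bl(θ)^G = B`. -/
def kB (p : ℕ) (red : integralClosure ℤ ℂ →+* F) {G : Type} [Group G] (B : (G → F) → F) (d : ℕ)
    (H : Subgroup G) : ℕ :=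
  Nat.card {θ : H → ℂ // (IsIrreducibleCharacter θ ∧
      ∀ f : G → F, IsClassFun f → centralValue red θ (fun x => f x) = B f) ∧
    ∃ n : ℕ, θ 1 = (n : ℂ) ∧ n.factorization p + d = (Nat.card H).factorization p}

/-- Dade's alternating sum `S_d(B) = ∑_σ (-1)^|σ| k^d(B_σ)` over representatives `σ` of the
`G`-classes of chains of nontrivial `p`-subgroups of `G`, the empty chain included. -/
def S (p : ℕ) (red : integralClosure ℤ ℂ →+* F) {G : Type} [Group G] (B : (G → F) → F) (d : ℕ) : ℤ :=
  alternatingSum p G (fun H => (kB p red B d H : ℤ))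

/-- The weighted sum `∑_d S_d(B) t^d` (the terms with `d ≥ |G|` vanish). -/
def Weighted (p : ℕ) (red : integralClosure ℤ ℂ →+* F) (t : ℝ) {G : Type} [Group G]
    (B : (G → F) → F) : ℝ := ∑ d ∈ Finset.range (Nat.card G), (S p red B d : ℝ) * t ^ d

/-- The generating polynomial `∑_d S_d(B) x^d` (the terms with `d ≥ |G|` vanish). -/
def P (p : ℕ) (red : integralClosure ℤ ℂ →+* F) {G : Type} [Group G] (B : (G → F) → F) :
    Polynomial ℤ :=
  ∑ d ∈ Finset.range (Nat.card G), Polynomial.C (S p red B d) * Polynomial.X ^ d

/-- The number of the Galois conjugates `τ ∘ θ` (`τ` an automorphism of `ℂ`) of the character `θ`;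
this is the degree of the field of the values of `θ` over `ℚ`. -/
def conjugates {H : Type} (θ : H → ℂ) : ℕ :=
  Nat.card {θ' : H → ℂ // ∃ τ : ℂ ≃+* ℂ, θ' = fun x => τ (θ x)}

/-- The number of the irreducible characters `θ` of the subgroup `H` of `p`-defect `d` with
`bl(θ)^G = B` for which the number of the Galois conjugates is not divisible by `q`. -/
def kFew (q p : ℕ) (red : integralClosure ℤ ℂ →+* F) {G : Type} [Group G] (B : (G → F) → F) (d : ℕ)
    (H : Subgroup G) : ℕ :=
  Nat.card {θ : H → ℂ // ((IsIrreducibleCharacter θ ∧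
      ∀ f : G → F, IsClassFun f → centralValue red θ (fun x => f x) = B f) ∧
      ¬ q ∣ conjugates θ) ∧
    ∃ n : ℕ, θ 1 = (n : ℂ) ∧ n.factorization p + d = (Nat.card H).factorization p}

/-- The alternating sum `∑_σ (-1)^|σ| k_q^d(B_σ)` of the numbers of these characters. -/
def SFew (q p : ℕ) (red : integralClosure ℤ ℂ →+* F) {G : Type} [Group G] (B : (G → F) → F)
    (d : ℕ) : ℤ :=
  alternatingSum p G (fun H => (kFew q p red B d H : ℤ))

/-- `B` is a block of positive defect: all its ordinary irreducible characters have positive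
`p`-defect. -/
def PositiveDefect (p : ℕ) (red : integralClosure ℤ ℂ →+* F) {G : Type} [Group G]
    (B : (G → F) → F) : Prop :=
  ∀ χ : G → ℂ, IsIrreducibleCharacter χ →
    (∀ f : G → F, IsClassFun f → centralValue red χ f = B f) →
    ∃ n : ℕ, χ 1 = (n : ℂ) ∧ n.factorization p < (Nat.card G).factorization p

/-- `χ` is an ordinary irreducible character in the block `B`. -/
def InBlock (red : integralClosure ℤ ℂ →+* F) {G : Type} [Group G] (B : (G → F) → F)
    (χ : G → ℂ) : Prop :=
  IsIrreducibleCharacter χ ∧ ∀ f : G → F, IsClassFun f → centralValue red χ f = B f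

/-- The block `B` is rational: its set of ordinary irreducible characters is stable under all
automorphisms of `ℂ`. -/
def RationalBlock (red : integralClosure ℤ ℂ →+* F) {G : Type} [Group G]
    (B : (G → F) → F) : Prop :=
  ∀ τ : ℂ ≃+* ℂ, ∀ χ : G → ℂ, InBlock red B χ → InBlock red B (fun x => τ (χ x))

/-- The pairs of Dade's ordinary conjecture: a finite group `G` with `O_p(G) = 1` and a block `B` of
`G` of positive defect. -/
def Adm (p : ℕ) (red : integralClosure ℤ ℂ →+* F) (G : Type) (i : Group G) (B : (G → F) → F) : Prop :=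
  Finite G ∧ (∀ Q : Subgroup G, Q.Normal → IsPGroup p Q → Q = ⊥) ∧ IsBlock B ∧
    PositiveDefect p red B

/-- **Dade's ordinary conjecture** for the prime `p`: `S_d(B) = 0` for all `d`, all finite groups `G`
with `O_p(G) = 1` and all blocks `B` of `G` of positive defect. -/
def Dade (p : ℕ) (red : integralClosure ℤ ℂ →+* F) : Prop :=
  ∀ (G : Type) [i : Group G] (B : (G → F) → F), Adm p red G i B → ∀ d, S p red B d = 0

/-- The functional `M(f) = B(x ↦ ∑_v f(v, i(x)) z(v))` on the class functions of the regular wreath
product `C ≀ H`, where `z(v) = ∏_{g ∈ G} λ(v_{i(g)})` (reduced to `F`). -/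
def lift (red : integralClosure ℤ ℂ →+* F) {C G H : Type} [CommGroup C] [Group G] [Group H]
    (lam : C →* integralClosure ℤ ℂ) (i : G →* H) (B : (G → F) → F) :
    (RegularWreathProduct C H → F) → F :=
  fun f => B fun x => ∑ᶠ v : H → C, f ⟨v, i x⟩ * red (∏ᶠ g : G, lam (v (i g)))

/-- Every finite group is isomorphic to a subgroup of a member of the family `T`. -/
def Universal {ι : Type} (T : ι → Type) [∀ k, Group (T k)] : Prop :=
  ∀ (G : Type) [Group G] [Finite G], ∃ k, ∃ i : G →* T k, Function.Injective i

/-- `Q` holds for all blocks of positive defect of the regular wreath products `C ≀ T k`. -/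
def Tops (p : ℕ) (red : integralClosure ℤ ℂ →+* F) (C : Type) [Group C] {ι : Type} (T : ι → Type)
    [∀ k, Group (T k)] (Q : ∀ k, ((RegularWreathProduct C (T k) → F) → F) → Prop) : Prop :=
  ∀ (k : ι) (M : (RegularWreathProduct C (T k) → F) → F), IsBlock M → PositiveDefect p red M → Q k M

/-- The alternating groups `A_n`, `n ∈ N`. -/
abbrev Alt (N : Set ℕ) : N → Type := fun n => alternatingGroup (Fin n)

theorem S_eq (p : ℕ) (red : integralClosure ℤ ℂ →+* F) {G : Type} [Group G] (B : (G → F) → F)
    (d : ℕ) : S p red B d = Pool.Agent.E8helper60.DD.Sd p red B d := by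
  have h : ∀ H : Subgroup G, kB p red B d H = Pool.Agent.Q90.WR.anum p d
      (Pool.Agent.E8helper60.DD.IndB red B (Subtype.val : H → G)) := by
    intro H
    unfold kB Pool.Agent.Q90.WR.anum
    refine Nat.card_congr (Equiv.subtypeEquivRight fun θ => ?_)
    rw [Pool.Agent.E8helper60.DD.mem_IndB]
  unfold S Pool.Agent.E8helper60.DD.Sd
  simp only [h]

theorem SFew_eq (q p : ℕ) (red : integralClosure ℤ ℂ →+* F) {G : Type} [Group G]
    (B : (G → F) → F) (d : ℕ) : SFew q p red B d = Pool.Agent.H17.RB.Tq q p red B d := by
  have h : ∀ H : Subgroup G, kFew q p red B d H = Pool.Agent.H17.RB.gnum q p d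
      (Pool.Agent.E8helper60.DD.IndB red B (Subtype.val : H → G)) := by
    intro H
    unfold kFew Pool.Agent.H17.RB.gnum
    refine Nat.card_congr (Equiv.subtypeEquivRight fun θ => ?_)
    rw [Pool.Agent.E8helper60.DD.mem_IndB]
    exact Iff.rfl
  unfold SFew Pool.Agent.H17.RB.Tq
  simp only [h]

theorem Weighted_eq (p : ℕ) (red : integralClosure ℤ ℂ →+* F) (t : ℝ) {G : Type} [Group G]
    (B : (G → F) → F) : Weighted p red t B = Pool.Agent.E8helper60.DD.Wt p red t B := by
  unfold Weighted Pool.Agent.E8helper60.DD.Wt
  simp only [S_eq]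

theorem P_eq (p : ℕ) (red : integralClosure ℤ ℂ →+* F) {G : Type} [Group G] [Finite G]
    (B : (G → F) → F) : P p red B = Pool.Agent.E8helper60.DD.Pz p red B := by
  ext d
  rw [Pool.Agent.E8helper60.DD.Pz_coeff]
  unfold P
  rw [Polynomial.finsetSum_coeff]
  simp only [Polynomial.coeff_C_mul_X_pow, S_eq]
  rw [Finset.sum_ite_eq]
  split_ifs with h
  · rfl
  · rw [Finset.mem_range, not_lt] at h
    refine (Pool.Agent.E8helper60.DD.Sd_zero_of_lt red B (lt_of_lt_of_le ?_ h)).symm
    exact Nat.factorization_lt p Nat.card_pos.ne'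

/-- automorphisms of `ℂ` act on characters by power maps -/
theorem exists_pw {G : Type} [Group G] [Finite G] (τ : ℂ ≃+* ℂ) : ∃ u v : ℕ,
    u.Coprime (Nat.card G) ∧ v.Coprime (Nat.card G) ∧ u * v ≡ 1 [MOD Nat.card G] ∧
      ∀ χ : G → ℂ, IsIrreducibleCharacter χ → (fun x => τ (χ x)) = Pool.Agent.H17.RB.pwf v χ := by
  obtain ⟨j, hj, hτ⟩ := Pool.Agent.Q288.MB.exists_pow τ (N := Nat.card G) Nat.card_pos
  obtain ⟨v, hv, hjv⟩ := Pool.Agent.H17.RB.exists_inv j (Nat.card G) hj.symm
  refine ⟨v, j, hv, hj.symm, by rw [mul_comm]; exact hjv, fun χ h => ?_⟩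
  funext x
  exact hτ G χ h x pow_card_eq_one'

theorem exists_pw' {G : Type} [Group G] [Finite G] {v : ℕ} (hv : v.Coprime (Nat.card G)) :
    ∃ τ : ℂ ≃+* ℂ, ∀ χ : G → ℂ, IsIrreducibleCharacter χ →
      (fun x => τ (χ x)) = Pool.Agent.H17.RB.pwf v χ := by
  obtain ⟨σ, hσ⟩ := Pool.Agent.H17.DP.exists_aut (Nat.card G) v Nat.card_pos hv
  refine ⟨σ, fun χ h => ?_⟩
  funext x
  exact Pool.Agent.H17.RB.char_gal σ Nat.card_pos hσ h pow_card_eq_one'

theorem rational_iff (p : ℕ) [Fact p.Prime] [IsAlgClosed F] [CharP F p]
    (red : integralClosure ℤ ℂ →+* F) {G : Type} [Group G] [Finite G] {B : (G → F) → F}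
    (hB : IsBlock B) : RationalBlock red B ↔ Pool.Agent.H17.RB.Rt B := by
  constructor
  · intro h u hu f hf
    obtain ⟨v, hv, huv⟩ := Pool.Agent.H17.RB.exists_inv u (Nat.card G) hu
    obtain ⟨τ, hτ⟩ := exists_pw' (G := G) hv
    obtain ⟨χ, h1, h2⟩ := Pool.Agent.E8helper46.AW.exists_char (p := p) red hB
    have h3 := (h τ χ ⟨h1, h2⟩).2 f hf
    rw [hτ χ h1, Pool.Agent.H17.RB.cv_pwf red huv h1 hf,
      h2 _ (Pool.Agent.H17.RB.pwf_class hf u)] at h3
    exact h3
  · intro h τ χ hχ
    obtain ⟨u, v, hu, hv, huv, h'⟩ := exists_pw (G := G) τ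
    rw [h' χ hχ.1]
    refine ⟨Pool.Agent.H17.RB.char_pwf hv hχ.1, fun f hf => ?_⟩
    rw [Pool.Agent.H17.RB.cv_pwf red huv hχ.1 hf, hχ.2 _ (Pool.Agent.H17.RB.pwf_class hf u),
      h u hu f hf]

theorem Dade_iff (p : ℕ) (red : integralClosure ℤ ℂ →+* F) : Dade p red ↔
    ∀ (G : Type) [i : Group G] (B : (G → F) → F), Pool.Agent.H17.AT.AdmP p red G i B →
      ∀ d, Pool.Agent.E8helper60.DD.Sd p red B d = 0 := by
  unfold Dade
  simp only [S_eq]
  exact Iff.rfl

/-- **Dade's ordinary conjecture: wreath products with alternating groups decide.** Let `p` be a prime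
number.
(1) Let `C` be a finite abelian group of order prime to `p`, `λ ≠ 1` a linear character of `C`, `i` an
embedding of the finite group `G` in the finite group `H`, `B` a block of `G`. Then
`M(f) = B(x ↦ ∑_v f(v, i(x)) z(v))`, `z(v) = ∏_{g ∈ G} λ(v_{i(g)})`, is a block of the regular wreath
product `C ≀ H`, which has no nontrivial normal `p`-subgroups; `M` has positive defect if and only if `B`
has positive defect, `∑_d S_d(M) x^d = ∑_d S_d(B) x^d`, and `M` is rational if `B` is rational and
`λ ^ 2 = 1`.
In (2), (3), (5) and (6) `C ≠ 1` is a finite abelian group of order prime to `p` and all blocks `M` are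
blocks of positive defect.
(2) Let `T` be a family of finite groups such that each finite group is isomorphic to a subgroup of a
member of `T`. Let `m ≠ 1`. The following are equivalent: Dade's ordinary conjecture for all finite
groups; `S_d(M) = 0` for all `d` and all blocks `M` of the groups `C ≀ H`, `H ∈ T`; `m` divides `S_d(M)`
for all `d ≥ n₀` and all these `M`; there is a constant `c` with `S_d(M) ≤ c` for all `d` and all these
`M`.
(3) Let `2` divide `|C|` (so `p` is odd) and let `q` be a prime number (`q = p` is allowed). It suffices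
in (2) to consider the rational blocks `M`, and another equivalent condition is that `q` divides
`∑_σ (-1)^|σ| k_q^d(M_σ)` for all `d ≥ n₀` and all rational `M`; here `k_q^d(M_σ)` is the number of the
irreducible characters `θ` of the stabiliser of `σ` of defect `d` with `bl(θ)^Γ = M` such that the number
of the Galois conjugates of `θ` is not divisible by `q`.
(4) The family of the alternating groups `A_n`, `n ∈ N`, has the property of (2) for each infinite set
`N` of natural numbers.
(5) Let `t > 1` be a real number. Dade's ordinary conjecture is equivalent to: for every `ε > 0` there is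
a constant `c` with `S_d(M) ≤ c n^ε` for all `n`, `d` and all blocks `M` of `C ≀ A_n`; and also to: for
every `ε > 0` there is a constant `c` with `∑_d S_d(M) t^d ≤ c n^ε` for all `n` and all these `M`.
(6) If `2` divides `|C|` then it suffices in (5) to consider rational blocks `M`. -/
theorem result (p : ℕ) [Fact p.Prime] (F : Type) [Field F] [IsAlgClosed F] [CharP F p]
    (red : integralClosure ℤ ℂ →+* F) (n₀ : ℕ) (t : ℝ) (ht : 1 < t) :
    (∀ (C G H : Type) [CommGroup C] [Finite C] [Group G] [Finite G] [Group H] [Finite H]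
      (lam : C →* integralClosure ℤ ℂ) (i : G →* H) (B : (G → F) → F),
      ¬ p ∣ Nat.card C → lam ≠ 1 → Function.Injective i → IsBlock B →
      IsBlock (lift red lam i B) ∧
      (∀ Q : Subgroup (RegularWreathProduct C H), Q.Normal → IsPGroup p Q → Q = ⊥) ∧
      (PositiveDefect p red (lift red lam i B) ↔ PositiveDefect p red B) ∧
      P p red (lift red lam i B) = P p red B ∧
      (lam ^ 2 = 1 → RationalBlock red B → RationalBlock red (lift red lam i B))) ∧
    (∀ (C : Type) [CommGroup C] [Finite C] [Nontrivial C], ¬ p ∣ Nat.card C →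
      (∀ (ι : Type) (T : ι → Type) [∀ k, Group (T k)] [∀ k, Finite (T k)], Universal T →
        ∀ m q : ℕ, m ≠ 1 → q.Prime →
          List.TFAE
            [Dade p red,
             Tops p red C T fun _ M => ∀ d, S p red M d = 0,
             Tops p red C T fun _ M => ∀ d, n₀ ≤ d → (m : ℤ) ∣ S p red M d,
             ∃ c : ℝ, Tops p red C T fun _ M => ∀ d, (S p red M d : ℝ) ≤ c] ∧
          (2 ∣ Nat.card C → List.TFAE
            [Dade p red,
             Tops p red C T fun _ M => RationalBlock red M → ∀ d, S p red M d = 0,
             Tops p red C T fun _ M => RationalBlock red M → ∀ d, n₀ ≤ d → (m : ℤ) ∣ S p red M d,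
             Tops p red C T fun _ M => RationalBlock red M → ∀ d, n₀ ≤ d →
               (q : ℤ) ∣ SFew q p red M d,
             ∃ c : ℝ, Tops p red C T fun _ M => RationalBlock red M → ∀ d,
               (S p red M d : ℝ) ≤ c])) ∧
      List.TFAE
        [Dade p red,
         ∀ ε : ℝ, 0 < ε → ∃ c : ℝ, Tops p red C (fun n : ℕ => alternatingGroup (Fin n))
           fun n M => ∀ d, (S p red M d : ℝ) ≤ c * (n : ℝ) ^ ε,
         ∀ ε : ℝ, 0 < ε → ∃ c : ℝ, Tops p red C (fun n : ℕ => alternatingGroup (Fin n))
           fun n M => Weighted p red t M ≤ c * (n : ℝ) ^ ε] ∧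
      (2 ∣ Nat.card C → List.TFAE
        [Dade p red,
         ∀ ε : ℝ, 0 < ε → ∃ c : ℝ, Tops p red C (fun n : ℕ => alternatingGroup (Fin n))
           fun n M => RationalBlock red M → ∀ d, (S p red M d : ℝ) ≤ c * (n : ℝ) ^ ε,
         ∀ ε : ℝ, 0 < ε → ∃ c : ℝ, Tops p red C (fun n : ℕ => alternatingGroup (Fin n))
           fun n M => RationalBlock red M → Weighted p red t M ≤ c * (n : ℝ) ^ ε])) ∧
    ∀ N : Set ℕ, N.Infinite → Universal (Alt N) := by
  refine ⟨?_, ?_, fun N hN => Pool.Agent.H17.AT.emb_alt hN⟩
  · intro C G H _ _ _ _ _ _ lam i B hC hlam hi hB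
    have hfG : Fintype G := Fintype.ofFinite G
    have hA : ¬ p ∣ Nat.card (H → C) := Pool.Agent.H17.AT.not_dvd_pow hC
    have hnt : Nontrivial C := by
      by_contra h
      rw [not_nontrivial_iff_subsingleton] at h
      apply hlam
      ext x
      rw [Subsingleton.elim x 1, map_one, map_one]
    have e : lift red lam i B = (Pool.Agent.H17.AT.wrD lam hlam i hi).Mb red B := by
      funext f
      unfold lift Pool.Agent.H17.AT.Dat.Mb Pool.Agent.H17.AT.Dat.push
      congr 1
      funext x
      refine finsum_congr fun v => ?_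
      congr 2
      · apply RegularWreathProduct.ext
        · funext c
          change v c = ((Pool.Agent.H17.AT.wb C H v) *
            (RegularWreathProduct.inl (i x) : RegularWreathProduct C H)).left c
          simp [Pool.Agent.H17.AT.wb]
        · change i x = ((Pool.Agent.H17.AT.wb C H v) *
            (RegularWreathProduct.inl (i x) : RegularWreathProduct C H)).right
          simp [Pool.Agent.H17.AT.wb]
      · exact finprod_eq_prod_of_fintype _
    rw [e]
    have hM := (Pool.Agent.H17.AT.wrD lam hlam i hi).blk_Mb (p := p) red hB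
    refine ⟨hM, Pool.Agent.H17.AT.noP_wre hC, ?_, ?_, ?_⟩
    · exact (Pool.Agent.H17.AT.wrD lam hlam i hi).pos_Mb red hA hB
    · rw [P_eq, P_eq]
      exact (Pool.Agent.H17.AT.wrD lam hlam i hi).Pz_Mb red hA hB
    · intro h2 hr
      rw [rational_iff p red hB] at hr
      rw [rational_iff p red hM]
      refine (Pool.Agent.H17.AT.wrD lam hlam i hi).Rt_Mb red ?_ ?_ hr
      · intro v
        change Pool.Agent.H17.AT.wz lam i v ^ 2 = 1
        rw [Pool.Agent.H17.AT.wz_apply, ← Finset.prod_pow]
        exact Finset.prod_eq_one fun x _ => DFunLike.congr_fun h2 _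
      · have h3 : 2 ∣ Nat.card C := by
          by_contra h4
          apply hlam
          ext x
          have h5 : (Nat.card C).Coprime 2 :=
            ((Nat.Prime.coprime_iff_not_dvd Nat.prime_two).2 h4).symm
          have h6 : lam x ^ Nat.card C = 1 := by rw [← map_pow, pow_card_eq_one', map_one]
          have h7 : lam x ^ 2 = 1 := DFunLike.congr_fun h2 x
          have h8 : lam x = 1 := by
            have h9 := Nat.odd_iff.2 (Nat.two_dvd_ne_zero.1 h4)
            obtain ⟨k, hk⟩ := h9
            rw [hk, pow_succ, pow_mul, h7, one_pow, one_mul] at h6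
            exact h6
          rw [h8]
          rfl
        rw [RegularWreathProduct.card]
        exact Dvd.dvd.mul_right (h3.trans (dvd_pow_self _ Nat.card_pos.ne')) _
  · intro C _ _ _ hC
    have hrat : ∀ {H : Type} [Group H] [Finite H] {M : (RegularWreathProduct C H → F) → F},
        IsBlock M → (RationalBlock red M ↔ Pool.Agent.H17.RB.Rt M) :=
      fun hM => rational_iff p red hM
    have key : ∀ {ι : Type} (T : ι → Type) [∀ k, Group (T k)] [∀ k, Finite (T k)]
        (Q : ∀ k, ((RegularWreathProduct C (T k) → F) → F) → Prop),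
        (Tops p red C T fun k M => RationalBlock red M → Q k M) ↔
        ∀ (k : ι) (M : (RegularWreathProduct C (T k) → F) → F), IsBlock M →
          Pool.Agent.E8helper60.DD.Pos p red M → Pool.Agent.H17.RB.Rt M → Q k M := by
      intro ι T _ _ Q
      constructor
      · intro h k M h1 h2 h3
        exact h k M h1 h2 ((hrat h1).2 h3)
      · intro h k M h1 h2 h3
        exact h k M h1 h2 ((hrat h1).1 h3)
    refine ⟨fun ι T _ _ hT m q hm hq => ⟨?_, fun h2 => ?_⟩, ?_, fun h2 => ?_⟩
    · rw [Dade_iff]
      simp only [S_eq]
      exact Pool.Agent.H17.AT.tfae_cong red hC T hT hm n₀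
    · rw [Dade_iff]
      simp only [S_eq, SFew_eq, key]
      exact Pool.Agent.H17.AT.tfae_congr red hC h2 T hT hm hq n₀
    · rw [Dade_iff]
      simp only [S_eq, Weighted_eq]
      exact Pool.Agent.H17.AT.tfae_grow red hC ht
    · rw [Dade_iff]
      simp only [S_eq, Weighted_eq, key]
      exact Pool.Agent.H17.AT.tfae_growr red hC h2 ht

end Pool.Agent.Results.MP_3f89b9_al.AlternatingTops
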