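import Pool.Agent.H17.DP.Finp

/-!
# Dade's ordinary conjecture: one congruence modulo any `m ≠ 1` decides, powers of `p` included

Let `p` be a prime number (`p = 2` is allowed), `F` an algebraically closed field of characteristic `p`
and `red` a ring homomorphism from the algebraic integers to `F`. A `p`-block `B` of a finite group
`G` is (the central character of) a block of `F[G]`: an algebra homomorphism from the centre of `F[G]`
(the class functions `G → F` with the convolution product) to `F`. An irreducible character `θ` of a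
subgroup `H` satisfies `bl(θ)^G = B` if `B` is the composition of the restriction of class functions
from `G` to `H` with the reduction of the central character of `θ`.

Proof. Let `P(x) = ∑_d S_d(B) x^d` for Dade's alternating sums `S_d(B)`. Let `B` be a block of positive
defect of `G` and `C` a group of order `p`. There is exactly one block `B'` of the wreath product
`G ≀ C` above `B ⊗ ⋯ ⊗ B`. In contrast to the wreath products with groups of order prime to `p`, now
`G ≀ C` has new `p`-subgroups, the complements of the base group are among them, and a character of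
`p`-defect `d` of a subgroup of index `p` has `p` extensions of defect `d + 1`. The complexes of
`p`-subgroups of `G ≀ C` fixed by a subgroup `K` are computed in three steps (the subgroups which meet
the base group, the complements, the rest), and a Moebius inversion gives a formula for the alternating
sum of an arbitrary function of the stabilisers. The stabilisers `G_σ × C` of the complements contribute
the characters `θ` of `G_σ` whose central character satisfies `ω(f ^ p) = B(f) ^ p`; a Galois
automorphism which acts as `ζ ↦ ζ ^ p` on the roots of unity of order prime to `p` and trivially on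
those of `p`-power order maps the characters with `bl(θ)^G = B` onto them. The result is
`p P'(x) = P(x)^p - P(x^p) + p ^ 2 x (P(x^p) - P(x))`
for the generating function `P'` of `B'`. If `p ^ k` (`k ≥ 1`) divides all these polynomials then this
formula shows that `p ^ (k + 1)` divides `P(x^p)`, hence `P`. The leading coefficient of `P'` is `p` times
that of `P`, so that powers of `B'` contradict an upper bound. The formula bounds `P(t^p)` if `P(t)`
and `P'(t)` are bounded.
-/

set_option autoImplicit false

noncomputable section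

namespace Pool.Agent.Results.MP_3f89b9_al.CongruenceModP

open Pool.Agent.Y63.KR (alternatingSum)
open Pool.Agent.Y63.NV (IsClassFun IsBlock centralValue)
open Pool.Agent.Y63.AWC (IsIrreducibleCharacter)

variable {F : Type} [Field F]

/-- `k^d(B_σ)` for `G_σ = H`: the number of the irreducible characters `θ` of the subgroup `H` of
`p`-defect `d` with `bl(θ)^G = B`. -/
def kB (p : ℕ) (red : integralClosure ℤ ℂ →+* F) {G : Type} [Group G] (B : (G → F) → F) (d : ℕ)
    (H : Subgroup G) : ℕ :=
  Nat.card {θ : H → ℂ // (IsIrreducibleCharacter θ ∧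
      ∀ f : G → F, IsClassFun f → centralValue red θ (fun x => f x) = B f) ∧
    ∃ n : ℕ, θ 1 = (n : ℂ) ∧ n.factorization p + d = (Nat.card H).factorization p}

/-- Dade's alternating sum `S_d(B) = ∑_σ (-1)^|σ| k^d(B_σ)` over representatives `σ` of the
`G`-classes of chains of nontrivial `p`-subgroups of `G`, the empty chain included. -/
def S (p : ℕ) (red : integralClosure ℤ ℂ →+* F) {G : Type} [Group G] (B : (G → F) → F) (d : ℕ) : ℤ :=
  alternatingSum p G (fun H => (kB p red B d H : ℤ))

/-- The weighted sum `∑_d S_d(B) t^d` (the terms with `d ≥ |G|` vanish). -/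
def Weighted (p : ℕ) (red : integralClosure ℤ ℂ →+* F) (t : ℝ) {G : Type} [Group G]
    (B : (G → F) → F) : ℝ := ∑ d ∈ Finset.range (Nat.card G), (S p red B d : ℝ) * t ^ d

/-- `B` is a block of positive defect: all its ordinary irreducible characters have positive
`p`-defect. -/
def PositiveDefect (p : ℕ) (red : integralClosure ℤ ℂ →+* F) {G : Type} [Group G]
    (B : (G → F) → F) : Prop :=
  ∀ χ : G → ℂ, IsIrreducibleCharacter χ →
    (∀ f : G → F, IsClassFun f → centralValue red χ f = B f) →
    ∃ n : ℕ, χ 1 = (n : ℂ) ∧ n.factorization p < (Nat.card G).factorization p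

/-- The pairs of Dade's ordinary conjecture: a finite group `G` with `O_p(G) = 1` and a block `B` of
`G` of positive defect. -/
def Adm (p : ℕ) (red : integralClosure ℤ ℂ →+* F) (G : Type) (i : Group G) (B : (G → F) → F) : Prop :=
  Finite G ∧ (∀ Q : Subgroup G, Q.Normal → IsPGroup p Q → Q = ⊥) ∧ IsBlock B ∧
    PositiveDefect p red B

/-- `B'` is a block of `G × G` above (and so equal to) `B ⊗ B`. -/
def OverSq {G : Type} [Group G] (B : (G → F) → F) (B' : ((Fin 2 → G) → F) → F) : Prop :=
  ∀ f : G → F, IsClassFun f → B' (fun x => ∏ i, f (x i)) = B f ^ 2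

open Classical in
/-- `B'` is a block of `G ≀ C` above `B ⊗ ⋯ ⊗ B`. -/
def OverWr {G C : Type} [Group G] [Group C] [Fintype C] (B : (G → F) → F)
    (B' : (RegularWreathProduct G C → F) → F) : Prop :=
  ∀ f : G → F, IsClassFun f →
    B' (fun s => if s.right = 1 then ∏ c, f (s.left c) else 0) = B f ^ Fintype.card C

/-- The four conditions for a class `X` of pairs `(G, B)`. -/
def Conditions (p : ℕ) (red : integralClosure ℤ ℂ →+* F)
    (X : (G : Type) → Group G → ((G → F) → F) → Prop) (m n₀ : ℕ) (t : ℝ) : List Prop :=
  [∀ (G : Type) [i : Group G] (B : (G → F) → F), X G i B → ∀ d, S p red B d = 0,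
   ∀ (G : Type) [i : Group G] (B : (G → F) → F), X G i B → ∀ d, n₀ ≤ d → (m : ℤ) ∣ S p red B d,
   ∀ ε : ℝ, 0 < ε → ∃ c : ℝ, ∀ (G : Type) [i : Group G] (B : (G → F) → F), X G i B → ∀ d,
     (S p red B d : ℝ) ≤ c * (Nat.card G : ℝ) ^ ε,
   ∀ ε : ℝ, 0 < ε → ∃ c : ℝ, ∀ (G : Type) [i : Group G] (B : (G → F) → F), X G i B →
     Weighted p red t B ≤ c * (Nat.card G : ℝ) ^ ε]

theorem kB_eq (p : ℕ) (red : integralClosure ℤ ℂ →+* F) {G : Type} [Group G] (B : (G → F) → F)
    (d : ℕ) (H : Subgroup G) : kB p red B d H =
      Pool.Agent.Q90.WR.anum p d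
        (Pool.Agent.E8helper60.DD.IndB red B (Subtype.val : H → G)) := by
  unfold kB Pool.Agent.Q90.WR.anum
  refine Nat.card_congr (Equiv.subtypeEquivRight fun θ => ?_)
  rw [Pool.Agent.E8helper60.DD.mem_IndB]

theorem S_eq (p : ℕ) (red : integralClosure ℤ ℂ →+* F) {G : Type} [Group G] (B : (G → F) → F)
    (d : ℕ) : S p red B d = Pool.Agent.E8helper60.DD.Sd p red B d := by
  unfold S Pool.Agent.E8helper60.DD.Sd
  simp only [kB_eq]

theorem Weighted_eq (p : ℕ) (red : integralClosure ℤ ℂ →+* F) (t : ℝ) {G : Type} [Group G]
    (B : (G → F) → F) : Weighted p red t B = Pool.Agent.E8helper60.DD.Wt p red t B := by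
  unfold Weighted Pool.Agent.E8helper60.DD.Wt
  simp only [S_eq]

/-- **Dade's ordinary conjecture for every prime `p`: one congruence modulo any `m ≠ 1` decides.** Let
`n₀` be a natural number and `t` a real number with `|t| > 1`.
(1) Let `m ≠ 1` be a natural number (for instance `m = p`). The following are equivalent:
(i) `S_d(B) = 0` for all `d` and all pairs `(G, B)` of a finite group `G` with `O_p(G) = 1` and a block
`B` of `G` of positive defect;
(ii) `m` divides `S_d(B)` for all `d ≥ n₀` and all these pairs;
(iii) for every `ε > 0` there is a constant `c` with `S_d(B) ≤ c |G|^ε` for all `d` and all these pairs;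
(iv) for every `ε > 0` there is a constant `c` with `∑_d S_d(B) t^d ≤ c |G|^ε` for all these pairs.
(2) Let `C` be a group of order `p`. The conditions (i) to (iv) with `p ∣ m` are also equivalent for
every class `X` of pairs of a finite group `G` and a block `B` of `G` of positive defect which is closed
under `(G, B) ↦ (G × G, B ⊗ B)` and `(G, B) ↦ (G ≀ C, B')`, where `B'` is the block of `G ≀ C` above
`B ⊗ ⋯ ⊗ B`. -/
theorem result (p : ℕ) [Fact p.Prime] (F : Type) [Field F] [IsAlgClosed F] [CharP F p]
    (red : integralClosure ℤ ℂ →+* F) (n₀ : ℕ) (t : ℝ) (ht : 1 < |t|) :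
    (∀ m : ℕ, m ≠ 1 → List.TFAE (Conditions p red (Adm p red) m n₀ t)) ∧
    ∀ (C : Type) [Group C] [Fintype C], Nat.card C = p →
      ∀ X : (G : Type) → Group G → ((G → F) → F) → Prop,
        (∀ (G : Type) [i : Group G] (B : (G → F) → F), X G i B →
          Finite G ∧ IsBlock B ∧ PositiveDefect p red B) →
        (∀ (G : Type) [i : Group G] (B : (G → F) → F), X G i B →
          ∀ B' : ((Fin 2 → G) → F) → F, IsBlock B' → OverSq B B' →
            X (Fin 2 → G) inferInstance B') →
        (∀ (G : Type) [i : Group G] (B : (G → F) → F), X G i B →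
          ∀ B' : (RegularWreathProduct G C → F) → F, IsBlock B' → OverWr B B' →
            X (RegularWreathProduct G C) inferInstance B') →
        ∀ m : ℕ, p ∣ m → List.TFAE (Conditions p red X m n₀ t) := by
  have hp : p.Prime := Fact.out
  have hcond : ∀ (X : (G : Type) → Group G → ((G → F) → F) → Prop) (m : ℕ) (t : ℝ),
      Conditions p red X m n₀ t =
        [∀ (G : Type) [i : Group G] (B : (G → F) → F), X G i B →
           ∀ d, Pool.Agent.E8helper60.DD.Sd p red B d = 0,
         ∀ (G : Type) [i : Group G] (B : (G → F) → F), X G i B → ∀ d, n₀ ≤ d →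
           (m : ℤ) ∣ Pool.Agent.E8helper60.DD.Sd p red B d,
         ∀ ε : ℝ, 0 < ε → ∃ c : ℝ, ∀ (G : Type) [i : Group G] (B : (G → F) → F), X G i B → ∀ d,
           (Pool.Agent.E8helper60.DD.Sd p red B d : ℝ) ≤ c * (Nat.card G : ℝ) ^ ε,
         ∀ ε : ℝ, 0 < ε → ∃ c : ℝ, ∀ (G : Type) [i : Group G] (B : (G → F) → F), X G i B →
           Pool.Agent.E8helper60.DD.Wt p red t B ≤ c * (Nat.card G : ℝ) ^ ε] := by
    intro X m t
    unfold Conditions
    simp only [S_eq, Weighted_eq]
  have hsq : ∀ {G : Type} [Group G] {B : (G → F) → F} {B' : ((Fin 2 → G) → F) → F},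
      Pool.Agent.E8helper60.DD.OverP B B' ↔ OverSq B B' := by
    intro G _ B B'
    unfold Pool.Agent.E8helper60.DD.OverP OverSq
    rw [Fintype.card_fin]
    exact Iff.rfl
  have hwr : ∀ {C : Type} [Group C] [Fintype C] {G : Type} [Group G] {B : (G → F) → F}
      {B' : (RegularWreathProduct G C → F) → F},
      Pool.Agent.E8helper60.DD.OverW B B' ↔ OverWr B B' := by
    intro C _ _ G _ B B'
    exact Iff.rfl
  have key : ∀ (C : Type) [Group C] [Fintype C], Nat.card C = p →
      ∀ X : (G : Type) → Group G → ((G → F) → F) → Prop,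
        (∀ (G : Type) [i : Group G] (B : (G → F) → F), X G i B →
          Finite G ∧ IsBlock B ∧ PositiveDefect p red B) →
        (∀ (G : Type) [i : Group G] (B : (G → F) → F), X G i B →
          ∀ B' : ((Fin 2 → G) → F) → F, IsBlock B' → OverSq B B' →
            X (Fin 2 → G) inferInstance B') →
        (∀ (G : Type) [i : Group G] (B : (G → F) → F), X G i B →
          ∀ B' : (RegularWreathProduct G C → F) → F, IsBlock B' → OverWr B B' →
            X (RegularWreathProduct G C) inferInstance B') →
        ∀ m : ℕ, p ∣ m → List.TFAE (Conditions p red X m n₀ t) := by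
    intro C _ _ hC X h1 h2 h3 m hm
    rw [hcond]
    have hX : Pool.Agent.E8helper60.DD.Cls p red C X :=
      ⟨fun G _ B h => (h1 G B h).1, fun G _ B h => (h1 G B h).2.1, fun G _ B h => (h1 G B h).2.2,
        fun G _ B h B' h' h'' => h2 G B h B' h' (hsq.1 h''),
        fun G _ B h B' h' h'' => h3 G B h B' h' (hwr.1 h'')⟩
    exact Pool.Agent.H17.DP.tfae hC hX hm n₀ ht
  refine ⟨fun m hm => ?_, key⟩
  -- the case `p ∣ m` for all groups
  have hall : ∀ m : ℕ, p ∣ m → List.TFAE (Conditions p red (Adm p red) m n₀ t) := by
    intro m hm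
    have : NeZero p := ⟨hp.ne_zero⟩
    have hC : Nat.card (Multiplicative (ZMod p)) = p := by
      rw [Nat.card_eq_fintype_card, Fintype.card_multiplicative, ZMod.card]
    have hall := Pool.Agent.H17.DP.cls_allp (p := p) (red := red)
      (C := Multiplicative (ZMod p)) hC
    exact key (Multiplicative (ZMod p)) hC (Adm p red)
      (fun G _ B h => ⟨h.1, h.2.2.1, h.2.2.2⟩)
      (fun G _ B h B' h' h'' => hall.sq G B h B' h' (hsq.2 h''))
      (fun G _ B h B' h' h'' => hall.wr G B h B' h' (hwr.2 h'')) m hm
  obtain ⟨q, hq, hqm⟩ := Nat.exists_prime_and_dvd hm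
  by_cases hqp : q = p
  · exact hall m (hqp ▸ hqm)
  -- a prime divisor different from `p`
  have h1 := hall p (dvd_refl p)
  have : NeZero q := ⟨hq.ne_zero⟩
  have hC : Nat.card (Multiplicative (ZMod q)) = q := by
    rw [Nat.card_eq_fintype_card, Fintype.card_multiplicative, ZMod.card]
  have h2 : List.TFAE (Conditions p red (Adm p red) m n₀ 2) := by
    rw [hcond]
    exact (Pool.Agent.E8helper60.DD.cls_all (p := p) (red := red)
      (C := Multiplicative (ZMod q)) hq hqp hC).tfae hq hqp hC hqm n₀ one_lt_two
  unfold Conditions at h1 h2 ⊢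
  have e13 := h1.out 0 2
  have e14 := h1.out 0 3
  have e12 := h2.out 0 1
  tfae_have 1 ↔ 2 := e12
  tfae_have 1 ↔ 3 := e13
  tfae_have 1 ↔ 4 := e14
  tfae_finish

end Pool.Agent.Results.MP_3f89b9_al.CongruenceModP
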