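import Pool.Agent.H17.RB.Fin

/-!
# Dade's ordinary conjecture: rational blocks and characters with few Galois conjugates decide

Let `p` be a prime number (`p = 2` is allowed), `F` an algebraically closed field of characteristic `p`
and `red` a ring homomorphism from the algebraic integers to `F`. A `p`-block `B` of a finite group
`G` is (the central character of) a block of `F[G]`: an algebra homomorphism from the centre of `F[G]`
(the class functions `G → F` with the convolution product) to `F`. An irreducible character `θ` of a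
subgroup `H` satisfies `bl(θ)^G = B` if `B` is the composition of the restriction of class functions
from `G` to `H` with the reduction of the central character of `θ`. The block `B` is rational if its set
of ordinary irreducible characters is stable under all automorphisms of `ℂ`.

Proof. Let `P_B(x) = ∑_d S_d(B) x^d`. Let `A` be any finite group and `(B_a)_{a ∈ A}` a family of
pairwise different blocks of `G`. There is exactly one block `M` of `G ≀ A` above `⊗ B_a`: the inertial
group of `⊗ B_a` is the base group `N`. Let `σ` be a chain of `p`-subgroups of `G ≀ A` with stabiliser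
`K`. If the smallest subgroup `Q` of `σ` is not contained in `N`, then no character `θ` of `K` satisfies
`bl(θ)^{G ≀ A} = M`: the class functions `R_f(x) = ∑_a ∏_c f_c(x_{ac})` on `N` satisfy
`ω_θ(R_f) = ∑_a ∏_c B_c(f_{ac})`, but the restriction of `R_f` to `C_N(Q)` is stable under a `p`-element
which moves the coordinates without fixed points, and choosing class functions `f_c` which separate the
blocks `B_c` one gets `1 = 0`. A Moebius inversion shows that only the chains of subgroups of `N`
contribute, and Clifford theory reduces them to the chains of `N`. The result is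
`P_M = ∏_a P_{B_a}`. The group `A = (ℤ/|G|)ˣ / Stab(B)` acts simply transitively on the Galois
conjugates of `B`; the block `M` above their tensor product is rational, and `P_M = P_B ^ |A|` because
Galois conjugate blocks have the same sums. So the rational blocks decide, and as they are closed under
squares and under wreath products with a group of prime order `ℓ` (`ℓ = p` is allowed), the congruences
modulo `ℓ` and the bounds for rational blocks decide. Modulo `ℓ` the characters with a number of Galois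
conjugates divisible by `ℓ` do not matter.
-/

set_option autoImplicit false

noncomputable section

namespace Pool.Agent.Results.MP_3f89b9_al.RationalBlocks

open Pool.Agent.Y63.KR (alternatingSum)
open Pool.Agent.Y63.NV (IsClassFun IsBlock centralValue)
open Pool.Agent.Y63.AWC (IsIrreducibleCharacter)

variable {F : Type} [Field F]

/-- `k^d(B_σ)` for `G_σ = H`: the number of the irreducible characters `θ` of the subgroup `H` of
`p`-defect `d` with `bl(θ)^G = B`. -/
def kB (p : ℕ) (red : integralClosure ℤ ℂ →+* F) {G : Type} [Group G] (B : (G → F) → F) (d : ℕ)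
    (H : Subgroup G) : ℕ :=
  Nat.card {θ : H → ℂ // (IsIrreducibleCharacter θ ∧
      ∀ f : G → F, IsClassFun f → centralValue red θ (fun x => f x) = B f) ∧
    ∃ n : ℕ, θ 1 = (n : ℂ) ∧ n.factorization p + d = (Nat.card H).factorization p}

/-- Dade's alternating sum `S_d(B) = ∑_σ (-1)^|σ| k^d(B_σ)` over representatives `σ` of the
`G`-classes of chains of nontrivial `p`-subgroups of `G`, the empty chain included. -/
def S (p : ℕ) (red : integralClosure ℤ ℂ →+* F) {G : Type} [Group G] (B : (G → F) → F) (d : ℕ) : ℤ :=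
  alternatingSum p G (fun H => (kB p red B d H : ℤ))

/-- The weighted sum `∑_d S_d(B) t^d` (the terms with `d ≥ |G|` vanish). -/
def Weighted (p : ℕ) (red : integralClosure ℤ ℂ →+* F) (t : ℝ) {G : Type} [Group G]
    (B : (G → F) → F) : ℝ := ∑ d ∈ Finset.range (Nat.card G), (S p red B d : ℝ) * t ^ d

/-- The generating polynomial `∑_d S_d(B) x^d` (the terms with `d ≥ |G|` vanish). -/
def P (p : ℕ) (red : integralClosure ℤ ℂ →+* F) {G : Type} [Group G] (B : (G → F) → F) :
    Polynomial ℤ :=
  ∑ d ∈ Finset.range (Nat.card G), Polynomial.C (S p red B d) * Polynomial.X ^ d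

/-- The number of the Galois conjugates `τ ∘ θ` (`τ` an automorphism of `ℂ`) of the character `θ`;
this is the degree of the field of the values of `θ` over `ℚ`. -/
def conjugates {H : Type} (θ : H → ℂ) : ℕ :=
  Nat.card {θ' : H → ℂ // ∃ τ : ℂ ≃+* ℂ, θ' = fun x => τ (θ x)}

/-- The number of the irreducible characters `θ` of the subgroup `H` of `p`-defect `d` with
`bl(θ)^G = B` for which the number of the Galois conjugates is not divisible by `q`. -/
def kFew (q p : ℕ) (red : integralClosure ℤ ℂ →+* F) {G : Type} [Group G] (B : (G → F) → F) (d : ℕ)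
    (H : Subgroup G) : ℕ :=
  Nat.card {θ : H → ℂ // ((IsIrreducibleCharacter θ ∧
      ∀ f : G → F, IsClassFun f → centralValue red θ (fun x => f x) = B f) ∧
      ¬ q ∣ conjugates θ) ∧
    ∃ n : ℕ, θ 1 = (n : ℂ) ∧ n.factorization p + d = (Nat.card H).factorization p}

/-- The alternating sum `∑_σ (-1)^|σ| k_q^d(B_σ)` of the numbers of these characters. -/
def SFew (q p : ℕ) (red : integralClosure ℤ ℂ →+* F) {G : Type} [Group G] (B : (G → F) → F)
    (d : ℕ) : ℤ :=
  alternatingSum p G (fun H => (kFew q p red B d H : ℤ))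

/-- `B` is a block of positive defect: all its ordinary irreducible characters have positive
`p`-defect. -/
def PositiveDefect (p : ℕ) (red : integralClosure ℤ ℂ →+* F) {G : Type} [Group G]
    (B : (G → F) → F) : Prop :=
  ∀ χ : G → ℂ, IsIrreducibleCharacter χ →
    (∀ f : G → F, IsClassFun f → centralValue red χ f = B f) →
    ∃ n : ℕ, χ 1 = (n : ℂ) ∧ n.factorization p < (Nat.card G).factorization p

/-- `χ` is an ordinary irreducible character in the block `B`. -/
def InBlock (red : integralClosure ℤ ℂ →+* F) {G : Type} [Group G] (B : (G → F) → F)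
    (χ : G → ℂ) : Prop :=
  IsIrreducibleCharacter χ ∧ ∀ f : G → F, IsClassFun f → centralValue red χ f = B f

/-- The block `B'` is a Galois conjugate of the block `B`: there is an automorphism `τ` of `ℂ` which
maps the ordinary irreducible characters of `B` to those of `B'`. -/
def GaloisConjugate (red : integralClosure ℤ ℂ →+* F) {G : Type} [Group G]
    (B B' : (G → F) → F) : Prop :=
  ∃ τ : ℂ ≃+* ℂ, ∀ χ : G → ℂ, InBlock red B χ → InBlock red B' (fun x => τ (χ x))

/-- The block `B` is rational: its set of ordinary irreducible characters is stable under all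
automorphisms of `ℂ`. -/
def RationalBlock (red : integralClosure ℤ ℂ →+* F) {G : Type} [Group G]
    (B : (G → F) → F) : Prop :=
  ∀ τ : ℂ ≃+* ℂ, ∀ χ : G → ℂ, InBlock red B χ → InBlock red B (fun x => τ (χ x))

/-- The blocks `B`, `B'` are different. -/
def Different {G : Type} [Group G] (B B' : (G → F) → F) : Prop :=
  ∃ f : G → F, IsClassFun f ∧ B f ≠ B' f

/-- The pairs of Dade's ordinary conjecture: a finite group `G` with `O_p(G) = 1` and a block `B` of
`G` of positive defect. -/
def Adm (p : ℕ) (red : integralClosure ℤ ℂ →+* F) (G : Type) (i : Group G) (B : (G → F) → F) : Prop :=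
  Finite G ∧ (∀ Q : Subgroup G, Q.Normal → IsPGroup p Q → Q = ⊥) ∧ IsBlock B ∧
    PositiveDefect p red B

/-- `B'` is a block of `G × G` above (and so equal to) `B ⊗ B`. -/
def OverSq {G : Type} [Group G] (B : (G → F) → F) (B' : ((Fin 2 → G) → F) → F) : Prop :=
  ∀ f : G → F, IsClassFun f → B' (fun x => ∏ i, f (x i)) = B f ^ 2

open Classical in
/-- `B'` is a block of `G ≀ C` above `B ⊗ ⋯ ⊗ B`. -/
def OverWr {G C : Type} [Group G] [Group C] [Fintype C] (B : (G → F) → F)
    (B' : (RegularWreathProduct G C → F) → F) : Prop :=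
  ∀ f : G → F, IsClassFun f →
    B' (fun s => if s.right = 1 then ∏ c, f (s.left c) else 0) = B f ^ Fintype.card C

/-- `M` is a block of `G ≀ A` which covers the block `b = ⊗_a B_a` of the base group. -/
def OverTuple {G A : Type} [Group G] [Group A] [Fintype A] (Bt : A → (G → F) → F)
    (M : (RegularWreathProduct G A → F) → F) : Prop :=
  ∃ b : ((A → G) → F) → F, IsBlock b ∧
    (∀ f : A → G → F, (∀ a, IsClassFun (f a)) →
      b (fun x => ∏ a, f a (x a)) = ∏ a, Bt a (f a)) ∧
    ∀ g : RegularWreathProduct G A → F, IsClassFun g → (∀ s, s.right ≠ 1 → g s = 0) →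
      M g = b fun x => g ⟨x, 1⟩

/-- The six conditions for a class `X` of pairs `(G, B)`. -/
def Conditions (p : ℕ) (red : integralClosure ℤ ℂ →+* F)
    (X : (G : Type) → Group G → ((G → F) → F) → Prop) (m q n₀ : ℕ) (t : ℝ) : List Prop :=
  [∀ (G : Type) [i : Group G] (B : (G → F) → F), X G i B → ∀ d, S p red B d = 0,
   ∀ (G : Type) [i : Group G] (B : (G → F) → F), X G i B → RationalBlock red B →
     ∀ d, S p red B d = 0,
   ∀ (G : Type) [i : Group G] (B : (G → F) → F), X G i B → RationalBlock red B → ∀ d, n₀ ≤ d →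
     (m : ℤ) ∣ S p red B d,
   ∀ ε : ℝ, 0 < ε → ∃ c : ℝ, ∀ (G : Type) [i : Group G] (B : (G → F) → F), X G i B →
     RationalBlock red B → ∀ d, (S p red B d : ℝ) ≤ c * (Nat.card G : ℝ) ^ ε,
   ∀ ε : ℝ, 0 < ε → ∃ c : ℝ, ∀ (G : Type) [i : Group G] (B : (G → F) → F), X G i B →
     RationalBlock red B → Weighted p red t B ≤ c * (Nat.card G : ℝ) ^ ε,
   ∀ (G : Type) [i : Group G] (B : (G → F) → F), X G i B → RationalBlock red B → ∀ d, n₀ ≤ d →
     (q : ℤ) ∣ SFew q p red B d]

theorem S_eq (p : ℕ) (red : integralClosure ℤ ℂ →+* F) {G : Type} [Group G] (B : (G → F) → F)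
    (d : ℕ) : S p red B d = Pool.Agent.E8helper60.DD.Sd p red B d := by
  have h : ∀ H : Subgroup G, kB p red B d H = Pool.Agent.Q90.WR.anum p d
      (Pool.Agent.E8helper60.DD.IndB red B (Subtype.val : H → G)) := by
    intro H
    unfold kB Pool.Agent.Q90.WR.anum
    refine Nat.card_congr (Equiv.subtypeEquivRight fun θ => ?_)
    rw [Pool.Agent.E8helper60.DD.mem_IndB]
  unfold S Pool.Agent.E8helper60.DD.Sd
  simp only [h]

theorem SFew_eq (q p : ℕ) (red : integralClosure ℤ ℂ →+* F) {G : Type} [Group G]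
    (B : (G → F) → F) (d : ℕ) : SFew q p red B d = Pool.Agent.H17.RB.Tq q p red B d := by
  have h : ∀ H : Subgroup G, kFew q p red B d H = Pool.Agent.H17.RB.gnum q p d
      (Pool.Agent.E8helper60.DD.IndB red B (Subtype.val : H → G)) := by
    intro H
    unfold kFew Pool.Agent.H17.RB.gnum
    refine Nat.card_congr (Equiv.subtypeEquivRight fun θ => ?_)
    rw [Pool.Agent.E8helper60.DD.mem_IndB]
    exact Iff.rfl
  unfold SFew Pool.Agent.H17.RB.Tq
  simp only [h]

theorem Weighted_eq (p : ℕ) (red : integralClosure ℤ ℂ →+* F) (t : ℝ) {G : Type} [Group G]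
    (B : (G → F) → F) : Weighted p red t B = Pool.Agent.E8helper60.DD.Wt p red t B := by
  unfold Weighted Pool.Agent.E8helper60.DD.Wt
  simp only [S_eq]

theorem P_eq (p : ℕ) (red : integralClosure ℤ ℂ →+* F) {G : Type} [Group G] [Finite G]
    (B : (G → F) → F) : P p red B = Pool.Agent.E8helper60.DD.Pz p red B := by
  ext d
  rw [Pool.Agent.E8helper60.DD.Pz_coeff]
  unfold P
  rw [Polynomial.finsetSum_coeff]
  simp only [Polynomial.coeff_C_mul_X_pow, S_eq]
  rw [Finset.sum_ite_eq]
  split_ifs with h
  · rfl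
  · rw [Finset.mem_range, not_lt] at h
    refine (Pool.Agent.E8helper60.DD.Sd_zero_of_lt red B (lt_of_lt_of_le ?_ h)).symm
    exact Nat.factorization_lt p Nat.card_pos.ne'

/-- automorphisms of `ℂ` act on characters by power maps -/
theorem exists_pw {G : Type} [Group G] [Finite G] (τ : ℂ ≃+* ℂ) : ∃ u v : ℕ,
    u.Coprime (Nat.card G) ∧ v.Coprime (Nat.card G) ∧ u * v ≡ 1 [MOD Nat.card G] ∧
      ∀ χ : G → ℂ, IsIrreducibleCharacter χ → (fun x => τ (χ x)) = Pool.Agent.H17.RB.pwf v χ := by
  obtain ⟨j, hj, hτ⟩ := Pool.Agent.Q288.MB.exists_pow τ (N := Nat.card G) Nat.card_pos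
  obtain ⟨v, hv, hjv⟩ := Pool.Agent.H17.RB.exists_inv j (Nat.card G) hj.symm
  refine ⟨v, j, hv, hj.symm, by rw [mul_comm]; exact hjv, fun χ h => ?_⟩
  funext x
  exact hτ G χ h x pow_card_eq_one'

theorem exists_pw' {G : Type} [Group G] [Finite G] {v : ℕ} (hv : v.Coprime (Nat.card G)) :
    ∃ τ : ℂ ≃+* ℂ, ∀ χ : G → ℂ, IsIrreducibleCharacter χ →
      (fun x => τ (χ x)) = Pool.Agent.H17.RB.pwf v χ := by
  obtain ⟨σ, hσ⟩ := Pool.Agent.H17.DP.exists_aut (Nat.card G) v Nat.card_pos hv
  refine ⟨σ, fun χ h => ?_⟩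
  funext x
  exact Pool.Agent.H17.RB.char_gal σ Nat.card_pos hσ h pow_card_eq_one'

theorem conj_iff (p : ℕ) [Fact p.Prime] [IsAlgClosed F] [CharP F p]
    (red : integralClosure ℤ ℂ →+* F) {G : Type} [Group G] [Finite G] {B B' : (G → F) → F}
    (hB : IsBlock B) : GaloisConjugate red B B' ↔ ∃ u : ℕ, u.Coprime (Nat.card G) ∧
      ∀ f : G → F, IsClassFun f → B' f = B (Pool.Agent.H17.RB.pwf u f) := by
  constructor
  · rintro ⟨τ, hτ⟩
    obtain ⟨u, v, hu, hv, huv, h⟩ := exists_pw (G := G) τ
    obtain ⟨χ, h1, h2⟩ := Pool.Agent.E8helper46.AW.exists_char (p := p) red hB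
    refine ⟨u, hu, fun f hf => ?_⟩
    rw [← (hτ χ ⟨h1, h2⟩).2 f hf, h χ h1, Pool.Agent.H17.RB.cv_pwf red huv h1 hf,
      h2 _ (Pool.Agent.H17.RB.pwf_class hf u)]
  · rintro ⟨u, hu, h⟩
    obtain ⟨v, hv, huv⟩ := Pool.Agent.H17.RB.exists_inv u (Nat.card G) hu
    obtain ⟨τ, hτ⟩ := exists_pw' (G := G) hv
    refine ⟨τ, fun χ hχ => ?_⟩
    rw [hτ χ hχ.1]
    refine ⟨Pool.Agent.H17.RB.char_pwf hv hχ.1, fun f hf => ?_⟩
    rw [Pool.Agent.H17.RB.cv_pwf red huv hχ.1 hf, hχ.2 _ (Pool.Agent.H17.RB.pwf_class hf u), h f hf]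

theorem rational_iff (p : ℕ) [Fact p.Prime] [IsAlgClosed F] [CharP F p]
    (red : integralClosure ℤ ℂ →+* F) {G : Type} [Group G] [Finite G] {B : (G → F) → F}
    (hB : IsBlock B) : RationalBlock red B ↔ Pool.Agent.H17.RB.Rt B := by
  constructor
  · intro h u hu f hf
    obtain ⟨v, hv, huv⟩ := Pool.Agent.H17.RB.exists_inv u (Nat.card G) hu
    obtain ⟨τ, hτ⟩ := exists_pw' (G := G) hv
    obtain ⟨χ, h1, h2⟩ := Pool.Agent.E8helper46.AW.exists_char (p := p) red hB
    have h3 := (h τ χ ⟨h1, h2⟩).2 f hf
    rw [hτ χ h1, Pool.Agent.H17.RB.cv_pwf red huv h1 hf,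
      h2 _ (Pool.Agent.H17.RB.pwf_class hf u)] at h3
    exact h3
  · intro h τ χ hχ
    obtain ⟨u, v, hu, hv, huv, h'⟩ := exists_pw (G := G) τ
    rw [h' χ hχ.1]
    refine ⟨Pool.Agent.H17.RB.char_pwf hv hχ.1, fun f hf => ?_⟩
    rw [Pool.Agent.H17.RB.cv_pwf red huv hχ.1 hf, hχ.2 _ (Pool.Agent.H17.RB.pwf_class hf u),
      h u hu f hf]

theorem over_iff (p : ℕ) [Fact p.Prime] [IsAlgClosed F] [CharP F p]
    (red : integralClosure ℤ ℂ →+* F) {G A : Type} [Group G] [Finite G] [Group A] [Fintype A]
    {Bt : A → (G → F) → F} (hB : ∀ a, IsBlock (Bt a))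
    (hd : ∀ a b, a ≠ b → Different (Bt a) (Bt b)) {M : (RegularWreathProduct G A → F) → F}
    (hM : IsBlock M) : OverTuple Bt M ↔ Pool.Agent.H17.RB.OverT Bt M := by
  constructor
  · rintro ⟨b, h1, h2, h3⟩ f
    have h4 := Pool.Agent.H17.RB.b_RT h1 (fun f => h2 f.1 f.2) f
    rw [← h4]
    refine h3 _ (Pool.Agent.H17.RB.RT_inz f.2).conj fun s hs => ?_
    unfold Pool.Agent.H17.RB.RT
    rw [if_neg hs]
  · intro h
    obtain ⟨b, h1, h2, -⟩ := Pool.Agent.H17.RB.exists_M (p := p) red hB hd
    refine ⟨b, h1, fun f hf => h2 ⟨f, hf⟩, fun g hg _ => ?_⟩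
    exact Pool.Agent.H17.RB.M_eq (p := p) red hB hd h1 h2 hM h hg

/-- **Dade's ordinary conjecture: rational blocks and characters with few Galois conjugates decide.**
Let `p` be a prime number, `n₀` a natural number and `t > 1` a real number.
(1) Let `m ≠ 1` be a natural number and `q` a prime number (`m = p`, `q = p` are allowed). The following
are equivalent:
(i) `S_d(B) = 0` for all `d` and all pairs `(G, B)` of a finite group `G` with `O_p(G) = 1` and a block
`B` of `G` of positive defect;
(ii) the same for the rational blocks `B`;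
(iii) `m` divides `S_d(B)` for all `d ≥ n₀`, all such `G` and all rational blocks `B` of positive defect;
(iv) for every `ε > 0` there is a constant `c` with `S_d(B) ≤ c |G|^ε` for all `d`, all such `G` and all
rational blocks `B` of positive defect;
(v) for every `ε > 0` there is a constant `c` with `∑_d S_d(B) t^d ≤ c |G|^ε` for all such `G` and all
rational blocks `B` of positive defect;
(vi) `q` divides `∑_σ (-1)^|σ| k_q^d(B_σ)` for all `d ≥ n₀`, all such `G` and all rational blocks `B` of
positive defect, where `k_q^d(B_σ)` is the number of the irreducible characters `θ` of `G_σ` of defect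
`d` with `bl(θ)^G = B` such that the number of the Galois conjugates of `θ` is not divisible by `q`.
(2) Let `C` be a group of prime order `q` (`q = p` is allowed). The conditions (i) to (vi) with `q ∣ m`
are also equivalent for every class `X` of pairs of a finite group `G` and a block `B` of `G` of positive
defect which is closed under `(G, B) ↦ (G × G, B ⊗ B)`, under `(G, B) ↦ (G ≀ C, B')` with the block `B'`
above `B ⊗ ⋯ ⊗ B`, and under `(G, B) ↦ (G ≀ A, M)` for all finite abelian groups `A` and all blocks `M`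
above `⊗_a B_a` with pairwise different Galois conjugates `B_a` of `B`.
(3) For every finite group `A` and all pairwise different blocks `B_a` (`a ∈ A`) of a finite group `G`
there is exactly one block `M` of `G ≀ A` above `⊗_a B_a`. It has positive defect if all `B_a` have
positive defect, and `∑_d S_d(M) x^d = ∏_a ∑_d S_d(B_a) x^d`. -/
theorem result (p : ℕ) [Fact p.Prime] (F : Type) [Field F] [IsAlgClosed F] [CharP F p]
    (red : integralClosure ℤ ℂ →+* F) (n₀ : ℕ) (t : ℝ) (ht : 1 < t) :
    (∀ m q : ℕ, m ≠ 1 → q.Prime → List.TFAE (Conditions p red (Adm p red) m q n₀ t)) ∧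
    (∀ (q : ℕ) (C : Type) [Group C] [Fintype C], q.Prime → Nat.card C = q →
      ∀ X : (G : Type) → Group G → ((G → F) → F) → Prop,
        (∀ (G : Type) [i : Group G] (B : (G → F) → F), X G i B →
          Finite G ∧ IsBlock B ∧ PositiveDefect p red B) →
        (∀ (G : Type) [i : Group G] (B : (G → F) → F), X G i B →
          ∀ B' : ((Fin 2 → G) → F) → F, IsBlock B' → OverSq B B' →
            X (Fin 2 → G) inferInstance B') →
        (∀ (G : Type) [i : Group G] (B : (G → F) → F), X G i B →
          ∀ B' : (RegularWreathProduct G C → F) → F, IsBlock B' → OverWr B B' →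
            X (RegularWreathProduct G C) inferInstance B') →
        (∀ (G : Type) [i : Group G] (B : (G → F) → F), X G i B →
          ∀ (A : Type) [CommGroup A] [Fintype A] (Bt : A → (G → F) → F),
            (∀ a, IsBlock (Bt a) ∧ GaloisConjugate red B (Bt a)) →
            (∀ a b, a ≠ b → Different (Bt a) (Bt b)) →
            ∀ M : (RegularWreathProduct G A → F) → F, IsBlock M → OverTuple Bt M →
              X (RegularWreathProduct G A) inferInstance M) →
        ∀ m : ℕ, q ∣ m → List.TFAE (Conditions p red X m q n₀ t)) ∧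
    ∀ (G A : Type) [Group G] [Finite G] [Group A] [Fintype A] (Bt : A → (G → F) → F),
      (∀ a, IsBlock (Bt a)) → (∀ a b, a ≠ b → Different (Bt a) (Bt b)) →
      ∃ M : (RegularWreathProduct G A → F) → F, IsBlock M ∧ OverTuple Bt M ∧
        (∀ M' : (RegularWreathProduct G A → F) → F, IsBlock M' → OverTuple Bt M' →
          ∀ f : RegularWreathProduct G A → F, IsClassFun f → M' f = M f) ∧
        ((∀ a, PositiveDefect p red (Bt a)) → PositiveDefect p red M) ∧
        P p red M = ∏ a, P p red (Bt a) := by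
  have hp : p.Prime := Fact.out
  have hsq : ∀ {G : Type} [Group G] {B : (G → F) → F} {B' : ((Fin 2 → G) → F) → F},
      Pool.Agent.E8helper60.DD.OverP B B' ↔ OverSq B B' := by
    intro G _ B B'
    unfold Pool.Agent.E8helper60.DD.OverP OverSq
    rw [Fintype.card_fin]
    exact Iff.rfl
  have hwr : ∀ {C : Type} [Group C] [Fintype C] {G : Type} [Group G] {B : (G → F) → F}
      {B' : (RegularWreathProduct G C → F) → F},
      Pool.Agent.E8helper60.DD.OverW B B' ↔ OverWr B B' := by
    intro C _ _ G _ B B'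
    exact Iff.rfl
  have hcond : ∀ (X : (G : Type) → Group G → ((G → F) → F) → Prop) (m q : ℕ) (t : ℝ),
      (∀ (G : Type) [i : Group G] (B : (G → F) → F), X G i B → Finite G ∧ IsBlock B) →
      Conditions p red X m q n₀ t =
        [∀ (G : Type) [i : Group G] (B : (G → F) → F), X G i B →
           ∀ d, Pool.Agent.E8helper60.DD.Sd p red B d = 0,
         ∀ (G : Type) [i : Group G] (B : (G → F) → F), X G i B → Pool.Agent.H17.RB.Rt B →
           ∀ d, Pool.Agent.E8helper60.DD.Sd p red B d = 0,
         ∀ (G : Type) [i : Group G] (B : (G → F) → F), X G i B → Pool.Agent.H17.RB.Rt B →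
           ∀ d, n₀ ≤ d → (m : ℤ) ∣ Pool.Agent.E8helper60.DD.Sd p red B d,
         ∀ ε : ℝ, 0 < ε → ∃ c : ℝ, ∀ (G : Type) [i : Group G] (B : (G → F) → F), X G i B →
           Pool.Agent.H17.RB.Rt B → ∀ d,
             (Pool.Agent.E8helper60.DD.Sd p red B d : ℝ) ≤ c * (Nat.card G : ℝ) ^ ε,
         ∀ ε : ℝ, 0 < ε → ∃ c : ℝ, ∀ (G : Type) [i : Group G] (B : (G → F) → F), X G i B →
           Pool.Agent.H17.RB.Rt B →
             Pool.Agent.E8helper60.DD.Wt p red t B ≤ c * (Nat.card G : ℝ) ^ ε,
         ∀ (G : Type) [i : Group G] (B : (G → F) → F), X G i B → Pool.Agent.H17.RB.Rt B →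
           ∀ d, n₀ ≤ d → (q : ℤ) ∣ Pool.Agent.H17.RB.Tq q p red B d] := by
    intro X m q t hX
    have key : ∀ (G : Type) [i : Group G] (B : (G → F) → F), X G i B →
        (RationalBlock red B ↔ Pool.Agent.H17.RB.Rt B) := by
      intro G i B h
      have := (hX G B h).1
      exact rational_iff p red (hX G B h).2
    have key' : ∀ {Y : (G : Type) → Group G → ((G → F) → F) → Prop},
        (∀ (G : Type) [i : Group G] (B : (G → F) → F), X G i B → RationalBlock red B → Y G i B) ↔
        (∀ (G : Type) [i : Group G] (B : (G → F) → F), X G i B → Pool.Agent.H17.RB.Rt B →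
          Y G i B) := by
      intro Y
      constructor
      · intro h G i B h1 h2
        exact h G B h1 ((key G B h1).2 h2)
      · intro h G i B h1 h2
        exact h G B h1 ((key G B h1).1 h2)
    unfold Conditions
    simp only [S_eq, SFew_eq, Weighted_eq]
    rw [propext (key' (Y := fun G _ B => ∀ d, Pool.Agent.E8helper60.DD.Sd p red B d = 0)),
      propext (key' (Y := fun G _ B => ∀ d, n₀ ≤ d →
        (m : ℤ) ∣ Pool.Agent.E8helper60.DD.Sd p red B d)),
      propext (key' (Y := fun G _ B => ∀ d, n₀ ≤ d →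
        (q : ℤ) ∣ Pool.Agent.H17.RB.Tq q p red B d))]
    congr 3
    congr 1
    · refine propext (forall_congr' fun ε => forall_congr' fun _ => exists_congr fun c => ?_)
      exact key' (Y := fun G _ B => ∀ d,
        (Pool.Agent.E8helper60.DD.Sd p red B d : ℝ) ≤ c * (Nat.card G : ℝ) ^ ε)
    congr 1
    refine propext (forall_congr' fun ε => forall_congr' fun _ => exists_congr fun c => ?_)
    exact key' (Y := fun G _ B =>
        Pool.Agent.E8helper60.DD.Wt p red t B ≤ c * (Nat.card G : ℝ) ^ ε)
  have hadm : ∀ (G : Type) [i : Group G] (B : (G → F) → F), Adm p red G i B →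
      Finite G ∧ IsBlock B := fun G i B h => ⟨h.1, h.2.2.1⟩
  refine ⟨fun m q hm hq => ?_, ?_, ?_⟩
  · obtain ⟨ℓ, hℓ, hℓm⟩ := Nat.exists_prime_and_dvd hm
    have : NeZero q := ⟨hq.ne_zero⟩
    have : NeZero ℓ := ⟨hℓ.ne_zero⟩
    have hCq : Nat.card (Multiplicative (ZMod q)) = q := by
      rw [Nat.card_eq_fintype_card, Fintype.card_multiplicative, ZMod.card]
    have hCℓ : Nat.card (Multiplicative (ZMod ℓ)) = ℓ := by
      rw [Nat.card_eq_fintype_card, Fintype.card_multiplicative, ZMod.card]
    have h1 : List.TFAE (Conditions p red (Adm p red) m ℓ n₀ t) := by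
      rw [hcond _ _ _ _ hadm]
      exact (Pool.Agent.H17.RB.clsQ_all (p := p) (red := red)
        (C := Multiplicative (ZMod ℓ)) hℓ hCℓ).tfae hℓ hCℓ hℓm n₀ ht
    have h2 : List.TFAE (Conditions p red (Adm p red) q q n₀ t) := by
      rw [hcond _ _ _ _ hadm]
      exact (Pool.Agent.H17.RB.clsQ_all (p := p) (red := red)
        (C := Multiplicative (ZMod q)) hq hCq).tfae hq hCq (dvd_refl q) n₀ ht
    unfold Conditions at h1 h2 ⊢
    have e12 := h1.out 0 1
    have e13 := h1.out 0 2
    have e14 := h1.out 0 3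
    have e15 := h1.out 0 4
    have e16 := h2.out 0 5
    tfae_have 1 ↔ 2 := e12
    tfae_have 1 ↔ 3 := e13
    tfae_have 1 ↔ 4 := e14
    tfae_have 1 ↔ 5 := e15
    tfae_have 1 ↔ 6 := e16
    tfae_finish
  · intro q C _ _ hq hC X h1 h2 h3 h4 m hm
    rw [hcond _ _ _ _ fun G i B h => ⟨(h1 G B h).1, (h1 G B h).2.1⟩]
    refine Pool.Agent.H17.RB.ClsQ.tfae hq hC ⟨⟨fun G _ B h => (h1 G B h).1,
      fun G _ B h => (h1 G B h).2.1, fun G _ B h => (h1 G B h).2.2,
      fun G _ B h B' h' h'' => h2 G B h B' h' (hsq.1 h''),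
      fun G _ B h B' h' h'' => h3 G B h B' h' (hwr.1 h'')⟩, ?_⟩ hm n₀ ht
    intro G i B hX hr A _ _ Bt k1 k2 M k3 k4
    have hfin := (h1 G B hX).1
    have hB := (h1 G B hX).2.1
    have hBt : ∀ a, IsBlock (Bt a) := by
      intro a
      obtain ⟨u, hu, h5⟩ := k1 a
      exact Pool.Agent.H17.RB.blk_congr (Pool.Agent.H17.RB.blk_pw (p := p) red hu hB) h5
    exact h4 G B hX A Bt (fun a => ⟨hBt a, (conj_iff p red hB).2 (k1 a)⟩) k2 M k3
      ((over_iff p red hBt k2 k3).2 k4)
  · intro G A _ _ _ _ Bt hB hd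
    obtain ⟨b, h1, h2, χ, h3, h4⟩ := Pool.Agent.H17.RB.exists_M (p := p) red hB hd
    have hM : IsBlock (centralValue red χ) := Pool.Agent.Y930.NV.cvh F red _ _ h3
    have hO : Pool.Agent.H17.RB.OverT Bt (centralValue red χ) := by
      intro f
      rw [h4 _ (Pool.Agent.H17.RB.RT_inz f.2).conj]
      exact Pool.Agent.H17.RB.b_RT h1 h2 f
    refine ⟨_, hM, (over_iff p red hB hd hM).2 hO, fun M' k1 k2 f hf => ?_, fun hpos => ?_, ?_⟩
    · exact Pool.Agent.H17.RB.overT_unique (p := p) red hB hd k1 hM
        ((over_iff p red hB hd k1).1 k2) hO f hf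
    · exact Pool.Agent.H17.RB.pos_M red hB hd hpos hO
    · rw [P_eq, Pool.Agent.H17.RB.Pz_M red hB hd hM hO]
      exact Finset.prod_congr rfl fun a _ => (P_eq p red (Bt a)).symm

end Pool.Agent.Results.MP_3f89b9_al.RationalBlocks
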